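import Pool.Agent.Helper224.Usm7
import Pool.Agent.Helper224.Usm10

/-!
# MP_e1e1a2_an, Q1

There is a reflexive infinite-dimensional Banach space in which the spreading models generated by
normalized weakly null sequences exist and are all equivalent to the unit vector basis of one
explicit Marcinkiewicz sequence space, which is equivalent to the basis of no `ℓ_p` and not to
that of `c₀`.
-/

set_option autoImplicit false
open Filter Topology

namespace Pool.Agent.Results.MP_e1e1a2_an.MarcinkiewiczOnly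

/-- the weight `n / (1 + ⌊log₂ n⌋)` -/
noncomputable def weight (n : ℕ) : ℝ := (n : ℝ) / (1 + (Nat.log 2 n : ℝ))

/-- `N k a` is the norm of `∑ a i • s i` in the spreading model `(s i)` generated by the
normalized weakly null sequence `x` -/
def Generates {X : Type} [NormedAddCommGroup X] [NormedSpace ℝ X] (x : ℕ → X)
    (N : ∀ k : ℕ, (Fin k → ℝ) → ℝ) : Prop :=
  (∀ n, ‖x n‖ = 1) ∧ (∀ f : X →L[ℝ] ℝ, Tendsto (fun n => f (x n)) atTop (𝓝 0)) ∧
  ∀ (k : ℕ) (a : Fin k → ℝ) (ε : ℝ), 0 < ε → ∃ m : ℕ, ∀ n : Fin k → ℕ,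
    StrictMono n → (∀ i, m ≤ n i) → |‖∑ i, a i • x (n i)‖ - N k a| < ε

/-- `N` is, up to constants, the Marcinkiewicz norm: `N k a` is comparable with the least `B ≥ 0`
such that `∑ i ∈ F, |a i| ≤ B * weight |F|` for all `F` -/
def IsMarcinkiewicz (N : ∀ k : ℕ, (Fin k → ℝ) → ℝ) : Prop :=
  ∃ c C : ℝ, 0 < c ∧ 0 < C ∧ ∀ (k : ℕ) (a : Fin k → ℝ),
    (∀ F : Finset (Fin k), c * ∑ i ∈ F, |a i| ≤ weight F.card * N k a) ∧
    (∀ B : ℝ, 0 ≤ B → (∀ F : Finset (Fin k), ∑ i ∈ F, |a i| ≤ B * weight F.card) → N k a ≤ C * B)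

/-- equivalence with the unit vector basis of `ℓ_p` -/
def EquivLp (p : ℝ) (N : ∀ k : ℕ, (Fin k → ℝ) → ℝ) : Prop :=
  ∃ C : ℝ, 0 < C ∧ ∀ (k : ℕ) (a : Fin k → ℝ),
    N k a ≤ C * (∑ i, |a i| ^ p) ^ (1 / p) ∧ (∑ i, |a i| ^ p) ^ (1 / p) ≤ C * N k a

/-- equivalence with the unit vector basis of `c₀` -/
def EquivC0 (N : ∀ k : ℕ, (Fin k → ℝ) → ℝ) : Prop :=
  ∃ C : ℝ, 0 < C ∧ ∀ (k : ℕ) (a : Fin k → ℝ), N k a ≤ C * ‖a‖ ∧ ‖a‖ ≤ C * N k a

/-- reflexive: the canonical map into the bidual is onto -/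
def IsReflexive (X : Type) [NormedAddCommGroup X] [NormedSpace ℝ X] : Prop :=
  Function.Surjective (NormedSpace.inclusionInDoubleDual ℝ X)

/-- Main result. -/
theorem result :
    ∃ (X : Type) (_ : NormedAddCommGroup X) (_ : NormedSpace ℝ X),
      CompleteSpace X ∧ ¬ FiniteDimensional ℝ X ∧ IsReflexive X ∧
      (∃ (x : ℕ → X) (N : ∀ k : ℕ, (Fin k → ℝ) → ℝ), Generates x N) ∧
      ∀ (x : ℕ → X) (N : ∀ k : ℕ, (Fin k → ℝ) → ℝ), Generates x N →
        IsMarcinkiewicz N ∧ (∀ p : ℝ, 1 ≤ p → ¬ EquivLp p N) ∧ ¬ EquivC0 N := by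
  refine ⟨Helper224.Usm.T, inferInstance, inferInstance, inferInstance,
    Helper224.Usm.T_infinite, Helper224.Usm.T_reflexive,
    ⟨Helper224.Usm.e, Helper224.Usm.Ne, Helper224.Usm.norm_e, Helper224.Usm.e_weakly_null,
      Helper224.Usm.spr_e⟩, ?_⟩
  rintro x N ⟨hx, hw, hspr⟩
  have hxc := Helper224.Usm.coord_tendsto hw
  have hs : Helper224.Usm.Spr x N := hspr
  refine ⟨?_, ?_, ?_⟩
  · obtain ⟨c1, hc1, hlow⟩ := Helper224.Usm.spr_lower hx hxc hs
    exact ⟨c1, 440, hc1, by norm_num, fun k a => ⟨fun F => hlow k a F, fun B hB hF =>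
      Helper224.Usm.spr_upper hx hxc hs k a B hB hF⟩⟩
  · rintro p hp ⟨C, hC, h⟩
    exact Helper224.Usm.not_lp hx hxc hs p hp C hC fun k a => (h k a).2
  · rintro ⟨C, hC, h⟩
    refine Helper224.Usm.not_c0 hx hxc hs C fun k _ => (h k (fun _ => 1)).1.trans ?_
    have h1 : ‖(fun _ : Fin k => (1:ℝ))‖ ≤ 1 := by
      rw [pi_norm_le_iff_of_nonneg zero_le_one]
      intro i
      simp
    calc C * ‖(fun _ : Fin k => (1:ℝ))‖ ≤ C * 1 := by gcongr
      _ = C := mul_one _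

end Pool.Agent.Results.MP_e1e1a2_an.MarcinkiewiczOnly
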